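import Pool.Agent.Helper64_NNTree.Final

/-!
# MP_bfac84_pr, Q1: disproof

`Torus d` is the unit torus with the Euclidean distance and `expectedUncovered S` is the
expectation, over a uniformly random permutation `σ`, of the number of uncovered vertices of the
nearest neighbour tree of the sequence `S (σ 0), …, S (σ (n-1))`. Both are defined in
`Pool.Agent.Helper64_NNTree.Defs`.
-/

namespace Pool.Agent.Results.MP_bfac84_pr.PolynomialUncovered

open Pool.Agent.Helper64_NNTree Filter

/-- For every dimension `d ≥ 20` and all real constants `C`, `κ` there are `n ≥ 2` and a set of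
`n` distinct points of the torus `𝕋^d` for which the expected number of uncovered vertices is at
least `n^(1/25)` and is larger than `C (log n)^κ`. -/
theorem result : ∀ d : ℕ, 20 ≤ d → ∀ C κ : ℝ, ∃ n : ℕ, 2 ≤ n ∧ ∃ S : Fin n → Torus d,
    Function.Injective S ∧ (n : ℝ) ^ (1 / 25 : ℝ) ≤ expectedUncovered S ∧
      C * Real.log n ^ κ < expectedUncovered S := by
  intro d hd C κ
  obtain ⟨L, hL, hL1⟩ := ((eventually_lt_pow C κ).and (eventually_ge_atTop 1)).exists
  obtain ⟨S, hS, h⟩ := exists_config' d hd L
  refine ⟨10 ^ L, ?_, S, hS, h, lt_of_lt_of_le hL h⟩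
  calc 2 ≤ 10 ^ 1 := by norm_num
    _ ≤ 10 ^ L := Nat.pow_le_pow_right (by norm_num) hL1

end Pool.Agent.Results.MP_bfac84_pr.PolynomialUncovered
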